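import Mathlib
import Pool.Agent.Lib.helper23.VorD

set_option autoImplicit false

open Filter Topology

namespace Pool.Agent.Results.MP_785f4e_co.Main

/-- the Voronoi cell of `v` with respect to the sites `T` -/
def cell {V : Type} (G : SimpleGraph V) (T : Finset V) (v : V) : Set V :=
  {u | ∀ w ∈ T, G.dist u v ≤ G.dist u w}

/-- the number of sites with an infinite cell -/
noncomputable def infCells {V : Type} (G : SimpleGraph V) (T : Finset V) : ℕ :=
  {v | v ∈ T ∧ (cell G T v).Infinite}.ncard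

/-- the survival number -/
noncomputable def surv {V : Type} (G : SimpleGraph V) : ℕ∞ :=
  ⨆ (n : ℕ) (_ : 1 ≤ n ∧ ∃ d : ℕ, ∀ T : Finset V, n ≤ T.card →
    (∀ v ∈ T, ∀ w ∈ T, v ≠ w → d < G.dist v w) → n ≤ infCells G T), (n : ℕ∞)

/-- the least number of infinite cells for `n` sites -/
noncomputable def minCells {V : Type} (G : SimpleGraph V) (n : ℕ) : ℕ∞ :=
  ⨅ (T : Finset V) (_ : T.card = n), (infCells G T : ℕ∞)

open Pool.Agent.Lib.helper23.Vor in
theorem result : ∃ (V : Type) (G : SimpleGraph V), Infinite V ∧ G.Connected ∧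
    (∀ v, (G.neighborSet v).Finite) ∧ (∀ u v, ∃ φ : G ≃g G, φ u = v) ∧
    Tendsto (minCells G) atTop (𝓝 ⊤) ∧ surv G ≤ 6 := by
  refine ⟨W, DL, inferInstance, DL_conn, DL_fin, DL_trans,
    ENat.tendsto_nhds_top_iff_natCast_lt.2 fun K => ?_, DL_surv⟩
  filter_upwards [eventually_gt_atTop (K + K * (K * (2 * K + 1)))] with n hn
  refine lt_of_lt_of_le (b := ((K + 1 : ℕ) : ℕ∞)) (by exact_mod_cast K.lt_succ_self)
    (le_iInf₂ fun T hT => Nat.cast_le.2 (not_lt.1 fun h => ?_))
  exact hn.not_ge (hT ▸ DL_many K T (Nat.le_of_lt_succ h))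

end Pool.Agent.Results.MP_785f4e_co.Main
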